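import Mathlib

/-!
# Repeated averages of finite order and the quantity `wbs`
-/

namespace Pool.Agent.X171.WB

open Filter Topology

/-- The minimum of the support of a vector of `ℓ_1` of finite support. -/
noncomputable def minSupp (a : ℕ →₀ ℝ) : ℕ := sInf {i | a i ≠ 0}

/-- The indices `k_n`: `k_1 = 0`, `k_{n+1} = k_n + s_n`, where `s_n` is the minimum of the support
of `z_{k_n + 1}`. All sequences are indexed from `0`, so that `z_{k_n + 1}` is `z (kseq z n)`. -/
noncomputable def kseq (z : ℕ → (ℕ →₀ ℝ)) : ℕ → ℕ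
  | 0 => 0
  | n + 1 => kseq z n + minSupp (z (kseq z n))

/-- The successor step of the repeated averages. -/
noncomputable def succAvg (z : ℕ → (ℕ →₀ ℝ)) (n : ℕ) : ℕ →₀ ℝ :=
  ((minSupp (z (kseq z n)) : ℝ)⁻¹) • ∑ i ∈ Finset.Ico (kseq z n) (kseq z (n + 1)), z i

/-- The repeated averages of finite order `ξ` on the infinite set `{m 0 < m 1 < …}` of positive
integers. -/
noncomputable def RA : ℕ → (ℕ → ℕ) → ℕ → (ℕ →₀ ℝ)
  | 0, m => fun n => Finsupp.single (m n) 1
  | ξ + 1, m => succAvg (RA ξ m)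

section Quant

variable {X : Type} [NormedAddCommGroup X] [NormedSpace ℝ X]

/-- `a · (x_k) = ∑ a_k x_k`. -/
noncomputable def act (a : ℕ →₀ ℝ) (x : ℕ → X) : X := a.sum (fun k c => c • x k)

/-- Cesaro means. -/
noncomputable def cesaro (y : ℕ → X) (n : ℕ) : X :=
  ((n : ℝ) + 1)⁻¹ • ∑ i ∈ Finset.range (n + 1), y i

/-- `ca (y_n) = inf_n sup_{k, l ≥ n} ‖y_k - y_l‖`. -/
noncomputable def ca (y : ℕ → X) : ℝ :=
  ⨅ n : ℕ, ⨆ q : {q : ℕ × ℕ // n ≤ q.1 ∧ n ≤ q.2}, ‖y q.1.1 - y q.1.2‖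

/-- The infimum of `cca (ξ^M_n · (x_k))_n` over all infinite sets `M` of positive integers. -/
noncomputable def wcca (ξ : ℕ) (x : ℕ → X) : ℝ :=
  ⨅ m : {m : ℕ → ℕ // StrictMono m ∧ 0 < m 0}, ca (cesaro (fun n => act (RA ξ m.1 n) x))

/-- Weakly convergent sequences. -/
def WeakConv (x : ℕ → X) : Prop :=
  ∃ x₀ : X, ∀ φ : StrongDual ℝ X, Tendsto (fun n => φ (x n)) atTop (𝓝 (φ x₀))

/-- The quantity `wbs_ξ (A)`. -/
noncomputable def wbs (ξ : ℕ) (A : Set X) : ℝ :=
  sSup {r | ∃ x : ℕ → X, (∀ n, x n ∈ A) ∧ WeakConv x ∧ r = wcca ξ x}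

end Quant

/-- For a strictly increasing sequence `m` of positive integers, the cut points of the first
averages. -/
def kk (m : ℕ → ℕ) : ℕ → ℕ
  | 0 => 0
  | n + 1 => kk m n + m (kk m n)

lemma minSupp_single (i : ℕ) : minSupp (Finsupp.single i 1) = i := by
  unfold minSupp
  have : {j | (Finsupp.single i (1 : ℝ)) j ≠ 0} = {i} := by
    ext j
    simp only [Set.mem_ofPred_eq, Set.mem_singleton_iff, Finsupp.single_apply]
    constructor
    · intro h
      by_contra hne
      exact h (if_neg (fun h => hne h.symm))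
    · rintro rfl
      simp
  rw [this, csInf_singleton]

lemma kseq_eq (m : ℕ → ℕ) (n : ℕ) : kseq (RA 0 m) n = kk m n := by
  induction n with
  | zero => rfl
  | succ n ih =>
    rw [kseq, kk, ih]
    congr 1
    exact minSupp_single _

section Act

variable {X : Type} [NormedAddCommGroup X] [NormedSpace ℝ X]

/-- The action as a linear map. -/
noncomputable def actL (x : ℕ → X) : (ℕ →₀ ℝ) →ₗ[ℝ] X := Finsupp.linearCombination ℝ x

lemma act_eq (a : ℕ →₀ ℝ) (x : ℕ → X) : act a x = actL x a := rfl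

lemma act_RA_one (m : ℕ → ℕ) (n : ℕ) (x : ℕ → X) :
    act (RA 1 m n) x = (m (kk m n) : ℝ)⁻¹ • ∑ i ∈ Finset.Ico (kk m n) (kk m (n + 1)), x (m i) := by
  rw [act_eq]
  change actL x (succAvg (RA 0 m) n) = _
  unfold succAvg
  rw [map_smul, map_sum, kseq_eq, kseq_eq]
  have h1 : minSupp (RA 0 m (kk m n)) = m (kk m n) := minSupp_single _
  rw [h1]
  congr 1
  apply Finset.sum_congr rfl
  intro i _
  change actL x (Finsupp.single (m i) 1) = _
  unfold actL
  rw [Finsupp.linearCombination_single, one_smul]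

end Act

end Pool.Agent.X171.WB
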