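import Pool.Agent.X171.WB.Null

open Finset Filter Topology
open scoped BoundedContinuousFunction

namespace Pool.Agent.X171.WB

section Basic

variable {m : ℕ → ℕ}

lemma lt_m (hm : StrictMono m) (h0 : 0 < m 0) (i : ℕ) : i < m i := by
  induction i with
  | zero => exact h0
  | succ i ih =>
    have := hm (Nat.lt_succ_self i)
    simp only [Nat.succ_eq_add_one] at this
    omega

lemma kk_lt (hm : StrictMono m) (h0 : 0 < m 0) (n : ℕ) : kk m n < kk m (n + 1) := by
  rw [kk]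
  have := lt_m hm h0 (kk m n)
  omega

lemma kk_mono (hm : StrictMono m) (h0 : 0 < m 0) : StrictMono (kk m) :=
  strictMono_nat_of_lt_succ (kk_lt hm h0)

lemma le_kk (hm : StrictMono m) (h0 : 0 < m 0) (n : ℕ) : n ≤ kk m n := (kk_mono hm h0).id_le n

lemma mkk_pos (hm : StrictMono m) (h0 : 0 < m 0) (n : ℕ) : (0 : ℝ) < m (kk m n) := by
  have := lt_m hm h0 (kk m n)
  exact_mod_cast (by omega : 0 < m (kk m n))

lemma card_Ico (n : ℕ) : (Ico (kk m n) (kk m (n + 1))).card = m (kk m n) := by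
  rw [Nat.card_Ico, kk]
  omega

variable {Y : Type} [NormedAddCommGroup Y] [NormedSpace ℝ Y]

lemma norm_act_le (hm : StrictMono m) (h0 : 0 < m 0) {x : ℕ → Y} {r : ℝ} (hx : ∀ n, ‖x n‖ ≤ r)
    (n : ℕ) : ‖act (RA 1 m n) x‖ ≤ r := by
  rw [act_RA_one, norm_smul, Real.norm_of_nonneg (inv_nonneg.mpr (mkk_pos hm h0 n).le)]
  have h1 : ‖∑ i ∈ Ico (kk m n) (kk m (n + 1)), x (m i)‖ ≤ m (kk m n) * r := by
    refine (norm_sum_le _ _).trans ?_
    calc ∑ i ∈ Ico (kk m n) (kk m (n + 1)), ‖x (m i)‖ ≤ ∑ i ∈ Ico (kk m n) (kk m (n + 1)), r :=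
          Finset.sum_le_sum (fun i _ => hx _)
      _ = m (kk m n) * r := by rw [Finset.sum_const, card_Ico, nsmul_eq_mul]
  calc (m (kk m n) : ℝ)⁻¹ * ‖∑ i ∈ Ico (kk m n) (kk m (n + 1)), x (m i)‖
      ≤ (m (kk m n) : ℝ)⁻¹ * (m (kk m n) * r) :=
        mul_le_mul_of_nonneg_left h1 (inv_nonneg.mpr (mkk_pos hm h0 n).le)
    _ = r := by rw [← mul_assoc, inv_mul_cancel₀ (mkk_pos hm h0 n).ne', one_mul]

lemma norm_cesaro_le {y : ℕ → Y} {r : ℝ} (hy : ∀ n, ‖y n‖ ≤ r) (n : ℕ) : ‖cesaro y n‖ ≤ r := by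
  unfold cesaro
  have hpos : (0 : ℝ) < (n : ℝ) + 1 := by positivity
  rw [norm_smul, Real.norm_of_nonneg (inv_nonneg.mpr hpos.le)]
  have h1 : ‖∑ i ∈ range (n + 1), y i‖ ≤ ((n : ℝ) + 1) * r := by
    refine (norm_sum_le _ _).trans ?_
    calc ∑ i ∈ range (n + 1), ‖y i‖ ≤ ∑ i ∈ range (n + 1), r := Finset.sum_le_sum (fun i _ => hy _)
      _ = ((n : ℝ) + 1) * r := by rw [Finset.sum_const, Finset.card_range, nsmul_eq_mul]; push_cast; rfl
  calc ((n : ℝ) + 1)⁻¹ * ‖∑ i ∈ range (n + 1), y i‖ ≤ ((n : ℝ) + 1)⁻¹ * (((n : ℝ) + 1) * r) :=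
        mul_le_mul_of_nonneg_left h1 (inv_nonneg.mpr hpos.le)
    _ = r := by rw [← mul_assoc, inv_mul_cancel₀ hpos.ne', one_mul]

lemma ca_bdd {y : ℕ → Y} {r : ℝ} (hy : ∀ n, ‖y n‖ ≤ r) (n : ℕ) :
    BddAbove (Set.range (fun q : {q : ℕ × ℕ // n ≤ q.1 ∧ n ≤ q.2} => ‖y q.1.1 - y q.1.2‖)) := by
  refine ⟨r + r, ?_⟩
  rintro _ ⟨q, rfl⟩
  exact (norm_sub_le _ _).trans (add_le_add (hy _) (hy _))

lemma ca_nonneg (y : ℕ → Y) : 0 ≤ ca y := by
  unfold ca
  apply Real.iInf_nonneg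
  intro n
  apply Real.iSup_nonneg
  intro q
  exact norm_nonneg _

/-- Upper bounds for `ca`. -/
lemma ca_le {y : ℕ → Y} {r : ℝ} (h : ∀ ε : ℝ, 0 < ε → ∃ n, ∀ k l, n ≤ k → n ≤ l →
    ‖y k - y l‖ ≤ r + ε) : ca y ≤ r := by
  apply le_of_forall_pos_le_add
  intro ε hε
  obtain ⟨n, hn⟩ := h ε hε
  unfold ca
  refine (ciInf_le ⟨0, ?_⟩ n).trans ?_
  · rintro _ ⟨k, rfl⟩
    exact Real.iSup_nonneg (fun q => norm_nonneg _)
  · haveI : Nonempty {q : ℕ × ℕ // n ≤ q.1 ∧ n ≤ q.2} := ⟨⟨(n, n), le_rfl, le_rfl⟩⟩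
    exact ciSup_le (fun q => hn _ _ q.2.1 q.2.2)

/-- Lower bounds for `ca`. -/
lemma le_ca {y : ℕ → Y} {r C : ℝ} (hy : ∀ n, ‖y n‖ ≤ C) (h : ∀ n, ∃ k l, n ≤ k ∧ n ≤ l ∧
    r ≤ ‖y k - y l‖) : r ≤ ca y := by
  unfold ca
  apply le_ciInf
  intro n
  obtain ⟨k, l, hk, hl, h1⟩ := h n
  exact h1.trans (le_ciSup (ca_bdd hy n) ⟨(k, l), hk, hl⟩)

end Basic

/-- The value of the averages of unit vectors at a test functional with constant signs. -/
lemma D_act_e {m : ℕ → ℕ} (hm : StrictMono m) (h0 : 0 < m 0) (q : J) (hq : ∀ j, q.s j = 1) (n : ℕ) :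
    D q (act (RA 1 m n) e) = cw q.b * ((m (kk m n) : ℝ)⁻¹ *
      (((Ico (kk m n) (kk m (n + 1))).filter (fun i => m i ∈ q.F)).card : ℝ)) := by
  rw [act_RA_one, map_smul, map_sum, smul_eq_mul]
  have h1 : ∀ i ∈ Ico (kk m n) (kk m (n + 1)), D q (e (m i)) =
      cw q.b * if m i ∈ q.F then 1 else 0 := by
    intro i _
    rw [D_apply, e_f, hq]
  rw [Finset.sum_congr rfl h1, ← Finset.mul_sum, Finset.sum_boole]
  ring

theorem lower_e {m : ℕ → ℕ} (hm : StrictMono m) (h0 : 0 < m 0) :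
    1 / 4 ≤ ca (cesaro (fun n => act (RA 1 m n) e)) := by
  classical
  refine le_ca (C := 1) (norm_cesaro_le (norm_act_le hm h0 norm_e_le)) ?_
  intro n
  refine ⟨n, 2 * n + 1, le_rfl, by omega, ?_⟩
  set K := n + 1 with hK
  -- the test set
  set G : ℕ → Finset ℕ := fun t => (Ico (kk m (K + t)) (kk m (K + t + 1))).image m with hG
  set F : Finset ℕ := (range K).biUnion G with hF
  have hmemG : ∀ t a, a ∈ G t ↔ ∃ i, kk m (K + t) ≤ i ∧ i < kk m (K + t + 1) ∧ m i = a := by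
    intro t a
    simp only [hG, Finset.mem_image, Finset.mem_Ico, and_assoc]
  have hGS1 : ∀ t, S1 (G t) := by
    intro t j hj
    obtain ⟨i, hi1, hi2, rfl⟩ := (hmemG t j).mp hj
    have h1 : (G t).card = m (kk m (K + t)) := by
      simp only [hG]
      rw [Finset.card_image_of_injective _ hm.injective, card_Ico]
    rw [h1]
    exact (hm.monotone hi1).trans (Nat.le_succ _)
  have hFS2 : S2 F := by
    refine ⟨K, G, fun t _ => hGS1 t, ?_, rfl, ?_⟩
    · intro t t' htt' _ a ha b hb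
      obtain ⟨i, hi1, hi2, rfl⟩ := (hmemG t a).mp ha
      obtain ⟨i', hi1', hi2', rfl⟩ := (hmemG t' b).mp hb
      apply hm
      have : kk m (K + t + 1) ≤ kk m (K + t') := (kk_mono hm h0).monotone (by omega)
      omega
    · intro j hj
      rw [hF, Finset.mem_biUnion] at hj
      obtain ⟨t, _, hj⟩ := hj
      obtain ⟨i, hi1, hi2, rfl⟩ := (hmemG t j).mp hj
      have h1 : K ≤ kk m K := le_kk hm h0 K
      have h2 : kk m K ≤ kk m (K + t) := (kk_mono hm h0).monotone (by omega)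
      have h3 := lt_m hm h0 i
      omega
  set q : J := ⟨(F, false, fun _ => 1), fun _ => by simp, by
    unfold Adm
    simpa using hFS2⟩ with hq
  have hqF : q.F = F := rfl
  have hqb : cw q.b = 1 / 2 := by
    have : q.b = false := rfl
    rw [this]
    unfold cw
    simp
  have hmemF : ∀ i, m i ∈ F ↔ kk m K ≤ i ∧ i < kk m (2 * K) := by
    intro i
    rw [hF, Finset.mem_biUnion]
    constructor
    · rintro ⟨t, ht, h⟩
      obtain ⟨i', hi1, hi2, hi3⟩ := (hmemG t _).mp h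
      have : i' = i := hm.injective hi3
      subst this
      rw [Finset.mem_range] at ht
      have e1 : kk m K ≤ kk m (K + t) := (kk_mono hm h0).monotone (by omega)
      have e2 : kk m (K + t + 1) ≤ kk m (2 * K) := (kk_mono hm h0).monotone (by omega)
      omega
    · rintro ⟨h1, h2⟩
      -- find the block
      have hex : ∃ t, i < kk m (K + t + 1) := ⟨i, lt_of_lt_of_le (by omega)
        (le_kk hm h0 (K + i + 1))⟩
      set t := Nat.find hex with ht
      have ht1 : i < kk m (K + t + 1) := Nat.find_spec hex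
      have ht2 : kk m (K + t) ≤ i := by
        rcases Nat.eq_zero_or_pos t with h | h
        · rw [h]; exact h1
        · have h3 := Nat.find_min hex (m := t - 1) (by omega)
          have h4 : K + (t - 1) + 1 = K + t := by omega
          rw [h4] at h3
          exact not_lt.mp h3
      refine ⟨t, ?_, (hmemG t _).mpr ⟨i, ht2, ht1, rfl⟩⟩
      rw [Finset.mem_range]
      have h5 : kk m (K + t) < kk m (2 * K) := lt_of_le_of_lt ht2 h2
      have h6 := (kk_mono hm h0).lt_iff_lt.mp h5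
      omega
  have hval : ∀ t, D q (act (RA 1 m t) e) = if K ≤ t ∧ t < 2 * K then 1 / 2 else 0 := by
    intro t
    rw [D_act_e hm h0 q (fun _ => rfl), hqF, hqb]
    split_ifs with h
    · have h1 : (Ico (kk m t) (kk m (t + 1))).filter (fun i => m i ∈ F) =
          Ico (kk m t) (kk m (t + 1)) := by
        apply Finset.filter_true_of_mem
        intro i hi
        rw [Finset.mem_Ico] at hi
        rw [hmemF]
        have e1 : kk m K ≤ kk m t := (kk_mono hm h0).monotone h.1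
        have e2 : kk m (t + 1) ≤ kk m (2 * K) := (kk_mono hm h0).monotone (by omega)
        omega
      rw [h1, card_Ico, inv_mul_cancel₀ (mkk_pos hm h0 t).ne', mul_one]
    · have h1 : (Ico (kk m t) (kk m (t + 1))).filter (fun i => m i ∈ F) = ∅ := by
        apply Finset.filter_false_of_mem
        intro i hi hiF
        rw [Finset.mem_Ico] at hi
        rw [hmemF] at hiF
        apply h
        have e1 := (kk_mono hm h0).lt_iff_lt.mp (lt_of_le_of_lt hiF.1 hi.2)
        have e2 := (kk_mono hm h0).lt_iff_lt.mp (lt_of_le_of_lt hi.1 hiF.2)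
        omega
      rw [h1, Finset.card_empty]
      simp
  have hces : ∀ N, D q (cesaro (fun n => act (RA 1 m n) e) N) =
      ((N : ℝ) + 1)⁻¹ * ∑ t ∈ range (N + 1), if K ≤ t ∧ t < 2 * K then (1 / 2 : ℝ) else 0 := by
    intro N
    unfold cesaro
    rw [map_smul, map_sum, smul_eq_mul]
    congr 1
    exact Finset.sum_congr rfl (fun t _ => hval t)
  have h1 : D q (cesaro (fun n => act (RA 1 m n) e) n) = 0 := by
    rw [hces, Finset.sum_eq_zero, mul_zero]
    intro t ht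
    rw [if_neg]
    rw [Finset.mem_range] at ht
    omega
  have h2 : D q (cesaro (fun n => act (RA 1 m n) e) (2 * n + 1)) = 1 / 4 := by
    rw [hces]
    have e1 : ∑ t ∈ range (2 * n + 1 + 1), (if K ≤ t ∧ t < 2 * K then (1 / 2 : ℝ) else 0) =
        (K : ℝ) * (1 / 2) := by
      rw [← Finset.sum_filter, Finset.sum_const, nsmul_eq_mul]
      congr 2
      have : (range (2 * n + 1 + 1)).filter (fun t => K ≤ t ∧ t < 2 * K) = Ico K (2 * K) := by
        ext t
        simp only [Finset.mem_filter, Finset.mem_range, Finset.mem_Ico]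
        omega
      rw [this, Nat.card_Ico]
      omega
    rw [e1, hK]
    push_cast
    field_simp
    ring
  have h3 := (cesaro (fun n => act (RA 1 m n) e) n -
    cesaro (fun n => act (RA 1 m n) e) (2 * n + 1)).abs_le q
  rw [← D_apply, map_sub, h1, h2] at h3
  refine le_trans ?_ h3
  rw [zero_sub, abs_neg]
  exact le_abs_self _

end Pool.Agent.X171.WB
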