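import Pool.Agent.X171.WB.Space

open Finset Filter Topology
open scoped BoundedContinuousFunction

namespace Pool.Agent.X171.WB

/-- Convex combinations far out with small sums over the sets in `P`. -/
def Sml (P : Finset ℕ → Prop) : Prop :=
  ∀ N : Set ℕ, N.Infinite → ∀ η : ℝ, 0 < η → ∀ q : ℕ, ∃ (T : Finset ℕ) (z : ℕ → ℝ),
    (∀ j ∈ T, j ∈ N ∧ q ≤ j) ∧ (∀ j, 0 ≤ z j) ∧ (∀ j, j ∉ T → z j = 0) ∧ ∑ j ∈ T, z j = 1 ∧
      ∀ F, P F → ∑ j ∈ F, z j ≤ η

lemma sum_le_of_supp {T F : Finset ℕ} {z : ℕ → ℝ} (h0 : ∀ j, 0 ≤ z j) (h : ∀ j, j ∉ T → z j = 0) :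
    ∑ j ∈ F, z j ≤ ∑ j ∈ T, z j := by
  classical
  calc ∑ j ∈ F, z j ≤ ∑ j ∈ F ∪ T, z j :=
        Finset.sum_le_sum_of_subset_of_nonneg Finset.subset_union_left (fun j _ _ => h0 j)
    _ = ∑ j ∈ T, z j := by
        symm
        apply Finset.sum_subset Finset.subset_union_right
        intro j _ hj
        exact h j hj

lemma exists_subset (N : Set ℕ) (hN : N.Infinite) (q K : ℕ) :
    ∃ T : Finset ℕ, (∀ j ∈ T, j ∈ N ∧ q ≤ j) ∧ T.card = K := by
  have h1 : (N \ Set.Iio q).Infinite := hN.sdiff (Set.finite_Iio q)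
  obtain ⟨T, hT, hc⟩ := h1.exists_subset_card_eq K
  refine ⟨T, fun j hj => ?_, hc⟩
  have := hT hj
  exact ⟨this.1, not_lt.mp this.2⟩

lemma sml_zero : Sml (fun F => F.card ≤ 1) := by
  classical
  intro N hN η hη q
  obtain ⟨K, hK⟩ := exists_nat_one_div_lt hη
  obtain ⟨T, hT, hc⟩ := exists_subset N hN q (K + 1)
  have hpos : (0 : ℝ) < (K : ℝ) + 1 := by positivity
  refine ⟨T, fun j => if j ∈ T then 1 / ((K : ℝ) + 1) else 0, hT, ?_, ?_, ?_, ?_⟩
  · intro j
    dsimp only
    split_ifs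
    · positivity
    · exact le_rfl
  · intro j hj
    exact if_neg hj
  · rw [Finset.sum_congr rfl (fun j hj => if_pos hj), Finset.sum_const, hc, nsmul_eq_mul]
    push_cast
    field_simp
  · intro F hF
    calc ∑ j ∈ F, (if j ∈ T then 1 / ((K : ℝ) + 1) else 0) ≤ ∑ j ∈ F, 1 / ((K : ℝ) + 1) := by
          apply Finset.sum_le_sum
          intro j _
          split_ifs
          · exact le_rfl
          · positivity
      _ = (F.card : ℝ) * (1 / ((K : ℝ) + 1)) := by rw [Finset.sum_const, nsmul_eq_mul]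
      _ ≤ 1 * (1 / ((K : ℝ) + 1)) := by
          apply mul_le_mul_of_nonneg_right _ (by positivity)
          exact_mod_cast hF
      _ ≤ η := by rw [one_mul]; exact hK.le

lemma sml_step {P P' : Finset ℕ → Prop} (hP : Sml P)
    (hst : ∀ F, P' F → ∃ d : ℕ, (∀ j ∈ F, d ≤ j + 1) ∧ ∀ (z : ℕ → ℝ) (η : ℝ), (∀ j, 0 ≤ z j) →
      0 ≤ η → (∀ G, P G → ∑ j ∈ G, z j ≤ η) → ∑ j ∈ F, z j ≤ d * η) : Sml P' := by
  classical
  intro N hN η hη q
  have claim : ∀ K : ℕ, ∃ (T : Finset ℕ) (z : ℕ → ℝ),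
      (∀ j ∈ T, j ∈ N ∧ q ≤ j) ∧ (∀ j, 0 ≤ z j) ∧ (∀ j, j ∉ T → z j = 0) ∧
      ∑ j ∈ T, z j = K ∧ ∀ F, P' F → ∑ j ∈ F, z j ≤ 2 - (1 / 2 : ℝ) ^ K := by
    intro K
    induction K with
    | zero =>
      refine ⟨∅, fun _ => 0, by simp, fun _ => le_rfl, fun _ _ => rfl, by simp, fun F _ => ?_⟩
      rw [Finset.sum_const_zero, pow_zero]
      norm_num
    | succ K ih =>
      obtain ⟨T, z, h1, h2, h3, h4, h5⟩ := ih
      set Dn := max q (T.sup id + 1) with hDn
      have hη' : 0 < (1 / 2 : ℝ) ^ (K + 1) / ((Dn : ℝ) + 1) := by positivity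
      obtain ⟨T', z', h1', h2', h3', h4', h5'⟩ := hP N hN _ hη' Dn
      have hTD : ∀ j ∈ T, j < Dn := fun j hj => by
        have := Finset.le_sup (f := id) hj
        simp only [id] at this
        exact lt_of_lt_of_le (Nat.lt_succ_of_le this) (le_max_right _ _)
      refine ⟨T ∪ T', fun j => z j + z' j, ?_, fun j => add_nonneg (h2 j) (h2' j), ?_, ?_, ?_⟩
      · intro j hj
        rcases Finset.mem_union.mp hj with h | h
        · exact h1 j h
        · exact ⟨(h1' j h).1, (le_max_left _ _).trans (h1' j h).2⟩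
      · intro j hj
        rw [Finset.mem_union, not_or] at hj
        dsimp only
        rw [h3 j hj.1, h3' j hj.2, add_zero]
      · rw [Finset.sum_add_distrib]
        have e1 : ∑ j ∈ T ∪ T', z j = ∑ j ∈ T, z j :=
          (Finset.sum_subset Finset.subset_union_left (fun j _ hj => h3 j hj)).symm
        have e2 : ∑ j ∈ T ∪ T', z' j = ∑ j ∈ T', z' j :=
          (Finset.sum_subset Finset.subset_union_right (fun j _ hj => h3' j hj)).symm
        rw [e1, e2, h4, h4']
        push_cast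
        ring
      · intro F hF
        rw [Finset.sum_add_distrib]
        have hp1 : (1 / 2 : ℝ) ^ (K + 1) ≤ 1 := pow_le_one₀ (by norm_num) (by norm_num)
        by_cases hdis : ∃ a ∈ F, a ∈ T
        · obtain ⟨a, haF, haT⟩ := hdis
          obtain ⟨d, hd, hd2⟩ := hst F hF
          have e1 := hd2 z' _ h2' hη'.le h5'
          have e2 := h5 F hF
          have e3 : (d : ℝ) ≤ Dn := by
            have := hd a haF
            have := hTD a haT
            exact_mod_cast (by omega : d ≤ Dn)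
          have e4 : (d : ℝ) * ((1 / 2 : ℝ) ^ (K + 1) / ((Dn : ℝ) + 1)) ≤ (1 / 2 : ℝ) ^ (K + 1) := by
            calc (d : ℝ) * ((1 / 2 : ℝ) ^ (K + 1) / ((Dn : ℝ) + 1))
                ≤ ((Dn : ℝ) + 1) * ((1 / 2 : ℝ) ^ (K + 1) / ((Dn : ℝ) + 1)) :=
                  mul_le_mul_of_nonneg_right (by linarith) hη'.le
              _ = _ := by field_simp
          have e5 : (1 / 2 : ℝ) ^ K = 2 * (1 / 2 : ℝ) ^ (K + 1) := by rw [pow_succ]; ring
          linarith
        · have e1 : ∑ j ∈ F, z j = 0 := by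
            apply Finset.sum_eq_zero
            intro j hj
            exact h3 j (fun hT => hdis ⟨j, hj, hT⟩)
          have e2 : ∑ j ∈ F, z' j ≤ 1 := by
            rw [← h4']
            exact sum_le_of_supp h2' h3'
          linarith
  obtain ⟨K, hK⟩ := exists_nat_one_div_lt (half_pos hη)
  obtain ⟨T, z, h1, h2, h3, h4, h5⟩ := claim (K + 1)
  have hpos : (0 : ℝ) < (K : ℝ) + 1 := by positivity
  refine ⟨T, fun j => (1 / ((K : ℝ) + 1)) * z j, h1, fun j => mul_nonneg (by positivity) (h2 j),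
    fun j hj => by dsimp only; rw [h3 j hj, mul_zero], ?_, ?_⟩
  · rw [← Finset.mul_sum, h4]
    push_cast
    field_simp
  · intro F hF
    rw [← Finset.mul_sum]
    have e1 := h5 F hF
    have e2 : (0 : ℝ) ≤ (1 / 2 : ℝ) ^ (K + 1) := by positivity
    calc (1 / ((K : ℝ) + 1)) * ∑ j ∈ F, z j ≤ (1 / ((K : ℝ) + 1)) * 2 :=
          mul_le_mul_of_nonneg_left (by linarith) (by positivity)
      _ ≤ η := by linarith

lemma sml_one : Sml S1 := by
  refine sml_step sml_zero ?_
  intro F hF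
  refine ⟨F.card, hF, ?_⟩
  intro z η _ _ h
  calc ∑ j ∈ F, z j ≤ ∑ j ∈ F, η := by
        apply Finset.sum_le_sum
        intro j _
        have := h {j} (by simp)
        rwa [Finset.sum_singleton] at this
    _ = F.card * η := by rw [Finset.sum_const, nsmul_eq_mul]

lemma sml_two : Sml S2 := by
  classical
  refine sml_step sml_one ?_
  rintro F ⟨d, G, h1, h2, h3, h4⟩
  refine ⟨d, h4, ?_⟩
  intro z η h0 _ h
  rw [h3, Finset.sum_biUnion]
  · calc ∑ l ∈ range d, ∑ j ∈ G l, z j ≤ ∑ l ∈ range d, η :=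
          Finset.sum_le_sum (fun l hl => h _ (h1 l (Finset.mem_range.mp hl)))
      _ = d * η := by rw [Finset.sum_const, Finset.card_range, nsmul_eq_mul]
  · intro l hl l' hl' hne
    rw [Function.onFun, Finset.disjoint_left]
    intro a ha ha'
    rcases lt_or_gt_of_ne hne with h | h
    · exact lt_irrefl _ (h2 l l' h (Finset.mem_coe.mp hl' |> Finset.mem_range.mp) a ha a ha')
    · exact lt_irrefl _ (h2 l' l h (Finset.mem_coe.mp hl |> Finset.mem_range.mp) a ha' a ha)

lemma S1.S2 {F : Finset ℕ} (h : S1 F) : S2 F := by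
  refine ⟨1, fun _ => F, fun _ _ => h, ?_, ?_, ?_⟩
  · intro l l' hl hl'
    omega
  · simp
  · intro j _
    omega

/-- The unit vectors are weakly null. -/
theorem e_null (φ : StrongDual ℝ X) : Tendsto (fun n => φ (e n)) atTop (𝓝 0) := by
  classical
  by_contra hcon
  rw [Metric.tendsto_atTop] at hcon
  push Not at hcon
  obtain ⟨ε, hε, hfreq⟩ := hcon
  set N : Set ℕ := {n | ε ≤ |φ (e n)|} with hN
  have hNinf : N.Infinite := by
    rw [Set.infinite_iff_exists_gt]
    intro a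
    obtain ⟨n, hn, hn2⟩ := hfreq (a + 1)
    refine ⟨n, ?_, by omega⟩
    rwa [Real.dist_eq, sub_zero] at hn2
  have hη : 0 < ε / (2 * (‖φ‖ + 1)) := by positivity
  obtain ⟨T, z, h1, h2, h3, h4, h5⟩ := sml_two N hNinf _ hη 0
  set sg : ℕ → ℝ := fun j => if 0 ≤ φ (e j) then 1 else -1 with hsg
  have hsg1 : ∀ j, |sg j| ≤ 1 := by
    intro j
    simp only [hsg]
    split_ifs <;> simp
  have hsg2 : ∀ j, sg j * φ (e j) = |φ (e j)| := by
    intro j
    simp only [hsg]
    split_ifs with h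
    · rw [one_mul, abs_of_nonneg h]
    · rw [abs_of_neg (not_le.mp h)]; ring
  set v : X := ∑ j ∈ T, (z j * sg j) • e j with hv
  have hvn : ‖v‖ ≤ ε / (2 * (‖φ‖ + 1)) := by
    refine X.norm_le hη.le (fun q => ?_)
    have e1 : v.f q = ∑ j ∈ T, (z j * sg j) * (cw q.b * if j ∈ q.F then q.s j else 0) := by
      rw [← D_apply, hv, map_sum]
      apply Finset.sum_congr rfl
      intro j _
      rw [map_smul, D_apply, e_f, smul_eq_mul]
    rw [e1]
    have e2 : |∑ j ∈ T, (z j * sg j) * (cw q.b * if j ∈ q.F then q.s j else 0)| ≤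
        ∑ j ∈ T, (if j ∈ q.F then z j else 0) := by
      refine (Finset.abs_sum_le_sum_abs _ _).trans (Finset.sum_le_sum (fun j _ => ?_))
      rw [abs_mul, abs_mul, abs_mul, abs_of_nonneg (h2 j), abs_of_pos (cw_pos _)]
      split_ifs
      · calc z j * |sg j| * (cw q.b * |q.s j|) ≤ z j * 1 * (1 * 1) := by
              apply mul_le_mul
              · exact mul_le_mul_of_nonneg_left (hsg1 j) (h2 j)
              · exact mul_le_mul (cw_le _) (q.hs j) (abs_nonneg _) zero_le_one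
              · exact mul_nonneg (cw_pos _).le (abs_nonneg _)
              · rw [mul_one]; exact h2 j
          _ = z j := by ring
      · simp
    refine e2.trans ?_
    rw [← Finset.sum_filter]
    have e3 : ∑ j ∈ T.filter (fun j => j ∈ q.F), z j ≤ ∑ j ∈ q.F, z j := by
      apply Finset.sum_le_sum_of_subset_of_nonneg
      · intro j hj
        exact (Finset.mem_filter.mp hj).2
      · intro j _ _
        exact h2 j
    refine e3.trans (h5 q.F ?_)
    have := q.hA
    unfold Adm at this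
    split_ifs at this
    · exact this.S2
    · exact this
  have hφv : ε ≤ φ v := by
    rw [hv, map_sum]
    calc ε = ∑ j ∈ T, z j * ε := by rw [← Finset.sum_mul, h4, one_mul]
      _ ≤ ∑ j ∈ T, φ ((z j * sg j) • e j) := by
          apply Finset.sum_le_sum
          intro j hj
          rw [map_smul, smul_eq_mul, mul_assoc, hsg2]
          exact mul_le_mul_of_nonneg_left (h1 j hj).1 (h2 j)
  have h6 : φ v ≤ ‖φ‖ * (ε / (2 * (‖φ‖ + 1))) :=
    (le_abs_self _).trans ((φ.le_opNorm v).trans (mul_le_mul_of_nonneg_left hvn (norm_nonneg _)))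
  have h7 : ‖φ‖ * (ε / (2 * (‖φ‖ + 1))) ≤ (‖φ‖ + 1) * (ε / (2 * (‖φ‖ + 1))) :=
    mul_le_mul_of_nonneg_right (by linarith) hη.le
  have h8 : (‖φ‖ + 1) * (ε / (2 * (‖φ‖ + 1))) = ε / 2 := by
    have : ‖φ‖ + 1 ≠ 0 := by positivity
    field_simp
  linarith

end Pool.Agent.X171.WB
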