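import Pool.Agent.X171.WB.Defs

open Finset Filter Topology
open scoped BoundedContinuousFunction

namespace Pool.Agent.X171.WB

/-- Schreier sets of order one (for the integers shifted by one). -/
def S1 (F : Finset ℕ) : Prop := ∀ j ∈ F, F.card ≤ j + 1

/-- Schreier sets of order two. -/
def S2 (F : Finset ℕ) : Prop := ∃ (d : ℕ) (G : ℕ → Finset ℕ), (∀ l < d, S1 (G l)) ∧
  (∀ l l', l < l' → l' < d → ∀ a ∈ G l, ∀ b ∈ G l', a < b) ∧
  F = (range d).biUnion G ∧ ∀ j ∈ F, d ≤ j + 1

lemma S1.mono {F G : Finset ℕ} (h : S1 F) (hG : G ⊆ F) : S1 G := fun j hj =>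
  (Finset.card_le_card hG).trans (h j (hG hj))

lemma S2.filter {F : Finset ℕ} (h : S2 F) (P : ℕ → Prop) [DecidablePred P] : S2 (F.filter P) := by
  obtain ⟨d, G, h1, h2, h3, h4⟩ := h
  refine ⟨d, fun l => (G l).filter P, fun l hl => (h1 l hl).mono (Finset.filter_subset _ _),
    fun l l' hl hl' a ha b hb => h2 l l' hl hl' a (Finset.mem_filter.mp ha).1 b
      (Finset.mem_filter.mp hb).1, ?_, fun j hj => h4 j (Finset.mem_filter.mp hj).1⟩
  rw [h3, Finset.filter_biUnion]

lemma S1_single (j : ℕ) : S1 {j} := by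
  intro i _
  simp

/-- The weights. -/
noncomputable def cw (b : Bool) : ℝ := if b then 1 else 1 / 2

lemma cw_pos (b : Bool) : 0 < cw b := by unfold cw; split_ifs <;> norm_num

lemma cw_le (b : Bool) : cw b ≤ 1 := by unfold cw; split_ifs <;> norm_num

/-- The condition on the test sets. -/
def Adm (F : Finset ℕ) (b : Bool) : Prop := if b then S1 F else S2 F

lemma Adm.filter {F : Finset ℕ} {b : Bool} (h : Adm F b) (P : ℕ → Prop) [DecidablePred P] :
    Adm (F.filter P) b := by
  unfold Adm at *
  split_ifs at *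
  · exact h.mono (Finset.filter_subset _ _)
  · exact S2.filter h P

/-- The index set of the norming functionals. -/
def J : Type := {q : Finset ℕ × Bool × (ℕ → ℝ) // (∀ j, |q.2.2 j| ≤ 1) ∧ Adm q.1 q.2.1}

instance : TopologicalSpace J := ⊥
instance : DiscreteTopology J := ⟨rfl⟩

namespace J
/-- The test set. -/
def F (q : J) : Finset ℕ := q.1.1
/-- The type. -/
def b (q : J) : Bool := q.1.2.1
/-- The signs. -/
def s (q : J) : ℕ → ℝ := q.1.2.2
lemma hs (q : J) (j : ℕ) : |q.s j| ≤ 1 := q.2.1 j
lemma hA (q : J) : Adm q.F q.b := q.2.2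
/-- Restriction of the test set. -/
def res (q : J) (P : ℕ → Prop) [DecidablePred P] : J := ⟨(q.F.filter P, q.b, q.s), q.hs, q.hA.filter P⟩
end J

/-- The coordinate functional. -/
def coord (j : ℕ) : J := ⟨({j}, true, fun _ => 1), fun _ => by simp, by
  unfold Adm
  simp only [if_true]
  exact S1_single j⟩

/-- The space, as a subspace of the bounded functions on `J`. -/
def Xs : Submodule ℝ (J →ᵇ ℝ) where
  carrier := {x | (∀ q : J, x q = cw q.b * ∑ j ∈ q.F, q.s j * x (coord j)) ∧
    ∀ ε : ℝ, 0 < ε → ∃ n, ∀ q : J, (∀ j ∈ q.F, n ≤ j) → |x q| ≤ ε}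
  add_mem' := by
    rintro x y ⟨h1, h2⟩ ⟨h1', h2'⟩
    refine ⟨fun q => ?_, fun ε hε => ?_⟩
    · simp only [BoundedContinuousFunction.add_apply, mul_add, Finset.sum_add_distrib]
      rw [← h1 q, ← h1' q]
    · obtain ⟨n, hn⟩ := h2 (ε / 2) (half_pos hε)
      obtain ⟨n', hn'⟩ := h2' (ε / 2) (half_pos hε)
      refine ⟨max n n', fun q hq => ?_⟩
      have e1 := hn q (fun j hj => (le_max_left _ _).trans (hq j hj))
      have e2 := hn' q (fun j hj => (le_max_right _ _).trans (hq j hj))
      simp only [BoundedContinuousFunction.add_apply]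
      rw [abs_le] at *
      constructor <;> linarith
  zero_mem' := by
    refine ⟨fun q => by simp, fun ε hε => ⟨0, fun q _ => by simpa using hε.le⟩⟩
  smul_mem' := by
    rintro c x ⟨h1, h2⟩
    refine ⟨fun q => ?_, fun ε hε => ?_⟩
    · simp only [BoundedContinuousFunction.smul_apply, smul_eq_mul]
      rw [h1 q, Finset.mul_sum, Finset.mul_sum, Finset.mul_sum]
      apply Finset.sum_congr rfl
      intro j _
      ring
    · obtain ⟨n, hn⟩ := h2 (ε / (|c| + 1)) (by positivity)
      refine ⟨n, fun q hq => ?_⟩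
      simp only [BoundedContinuousFunction.smul_apply, smul_eq_mul, abs_mul]
      calc |c| * |x q| ≤ (|c| + 1) * (ε / (|c| + 1)) :=
            mul_le_mul (by linarith) (hn q hq) (abs_nonneg _) (by positivity)
        _ = ε := by field_simp

lemma Xs_closed : IsClosed (Xs : Set (J →ᵇ ℝ)) := by
  apply isClosed_of_closure_subset
  intro x hx
  rw [Metric.mem_closure_iff] at hx
  refine ⟨fun q => ?_, fun ε hε => ?_⟩
  · have key : ∀ ε : ℝ, 0 < ε → |x q - cw q.b * ∑ j ∈ q.F, q.s j * x (coord j)| ≤ ε := by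
      intro ε hε
      obtain ⟨y, hy, hd⟩ := hx (ε / (q.F.card + 1)) (by positivity)
      have h1 : ∀ j : J, |x j - y j| ≤ ε / (q.F.card + 1) := fun j => by
        have := BoundedContinuousFunction.dist_coe_le_dist (f := x) (g := y) j
        rw [Real.dist_eq] at this
        linarith
      have h2 := hy.1 q
      have h3 : x q - cw q.b * ∑ j ∈ q.F, q.s j * x (coord j) =
          (x q - y q) - cw q.b * ∑ j ∈ q.F, q.s j * (x (coord j) - y (coord j)) := by
        simp only [mul_sub, Finset.sum_sub_distrib]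
        rw [h2]
        ring
      rw [h3]
      have h4 : |cw q.b * ∑ j ∈ q.F, q.s j * (x (coord j) - y (coord j))| ≤
          ∑ j ∈ q.F, ε / (q.F.card + 1) := by
        rw [abs_mul, abs_of_pos (cw_pos _)]
        calc cw q.b * |∑ j ∈ q.F, q.s j * (x (coord j) - y (coord j))|
            ≤ 1 * |∑ j ∈ q.F, q.s j * (x (coord j) - y (coord j))| :=
              mul_le_mul_of_nonneg_right (cw_le _) (abs_nonneg _)
          _ = |∑ j ∈ q.F, q.s j * (x (coord j) - y (coord j))| := one_mul _
          _ ≤ ∑ j ∈ q.F, |q.s j * (x (coord j) - y (coord j))| := Finset.abs_sum_le_sum_abs _ _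
          _ ≤ ∑ j ∈ q.F, ε / (q.F.card + 1) := by
              apply Finset.sum_le_sum
              intro j _
              rw [abs_mul]
              calc |q.s j| * |x (coord j) - y (coord j)| ≤ 1 * (ε / (q.F.card + 1)) :=
                    mul_le_mul (q.hs j) (h1 _) (abs_nonneg _) zero_le_one
                _ = _ := one_mul _
      calc |(x q - y q) - cw q.b * ∑ j ∈ q.F, q.s j * (x (coord j) - y (coord j))|
          ≤ |x q - y q| + |cw q.b * ∑ j ∈ q.F, q.s j * (x (coord j) - y (coord j))| :=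
            abs_sub _ _
        _ ≤ ε / (q.F.card + 1) + ∑ j ∈ q.F, ε / (q.F.card + 1) := add_le_add (h1 q) h4
        _ = ε := by
            rw [Finset.sum_const, nsmul_eq_mul]
            field_simp
            ring
    have := le_of_forall_pos_le_add (a := |x q - cw q.b * ∑ j ∈ q.F, q.s j * x (coord j)|) (b := 0)
      (fun ε hε => by rw [zero_add]; exact key ε hε)
    have h0 := abs_eq_zero.mp (le_antisymm this (abs_nonneg _))
    linarith
  · obtain ⟨y, hy, hd⟩ := hx (ε / 2) (by positivity)
    obtain ⟨n, hn⟩ := hy.2 (ε / 2) (by positivity)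
    refine ⟨n, fun q hq => ?_⟩
    have h1 : |x q - y q| ≤ ε / 2 := by
      have := BoundedContinuousFunction.dist_coe_le_dist (f := x) (g := y) q
      rw [Real.dist_eq] at this
      linarith
    have e1 := abs_le.mp h1
    have e3 := abs_le.mp (hn q hq)
    rw [abs_le]
    constructor <;> linarith [e1.1, e1.2, e3.1, e3.2]

/-- The Banach space. -/
def X : Type := Xs

noncomputable instance : NormedAddCommGroup X := inferInstanceAs (NormedAddCommGroup Xs)

noncomputable instance : NormedSpace ℝ X := inferInstanceAs (NormedSpace ℝ Xs)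

instance : CompleteSpace X := Xs_closed.completeSpace_coe

/-- The underlying function. -/
def X.f (x : X) : J →ᵇ ℝ := Subtype.val (show Xs from x)

lemma X.norm_def (x : X) : ‖x‖ = ‖x.f‖ := rfl

lemma X.abs_le (x : X) (q : J) : |x.f q| ≤ ‖x‖ :=
  BoundedContinuousFunction.norm_coe_le_norm x.f q

lemma X.norm_le {x : X} {r : ℝ} (hr : 0 ≤ r) (h : ∀ q, |x.f q| ≤ r) : ‖x‖ ≤ r :=
  (BoundedContinuousFunction.norm_le hr).mpr h

lemma X.prop_a (x : X) (q : J) : x.f q = cw q.b * ∑ j ∈ q.F, q.s j * x.f (coord j) :=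
  (Subtype.property (show Xs from x)).1 q

lemma X.prop_b (x : X) {ε : ℝ} (hε : 0 < ε) :
    ∃ n, ∀ q : J, (∀ j ∈ q.F, n ≤ j) → |x.f q| ≤ ε :=
  (Subtype.property (show Xs from x)).2 ε hε

/-- Evaluation at `q` as a linear map. -/
def Dl (q : J) : X →ₗ[ℝ] ℝ where
  toFun := fun x : X => x.f q
  map_add' := fun _ _ => rfl
  map_smul' := fun _ _ => rfl

lemma Dl_le (q : J) (x : X) : ‖Dl q x‖ ≤ 1 * ‖x‖ := by
  rw [one_mul]
  exact x.abs_le q

/-- Evaluation at `q`. -/
noncomputable def D (q : J) : StrongDual ℝ X := LinearMap.mkContinuous (Dl q) 1 (Dl_le q)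

@[simp] lemma D_apply (q : J) (x : X) : D q x = x.f q := rfl

/-- The unit vectors. -/
noncomputable def es (n : ℕ) : Xs :=
  ⟨BoundedContinuousFunction.ofNormedAddCommGroupDiscrete
    (fun q : J => cw q.b * if n ∈ q.F then q.s n else 0) 1
    (by
      intro q
      rw [Real.norm_eq_abs, abs_mul, abs_of_pos (cw_pos _)]
      have h1 : |if n ∈ q.F then q.s n else 0| ≤ 1 := by
        split_ifs
        · exact q.hs n
        · simp
      calc cw q.b * |if n ∈ q.F then q.s n else 0| ≤ 1 * 1 :=
            mul_le_mul (cw_le _) h1 (abs_nonneg _) zero_le_one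
        _ = 1 := one_mul 1), by
    refine ⟨fun q => ?_, fun ε hε => ?_⟩
    · simp only [BoundedContinuousFunction.coe_ofNormedAddCommGroupDiscrete]
      congr 1
      have h1 : ∀ j, cw (coord j).b * (if n ∈ (coord j).F then (coord j).s n else 0) =
          if j = n then 1 else 0 := by
        intro j
        have e1 : (coord j).b = true := rfl
        have e2 : (coord j).F = {j} := rfl
        have e3 : (coord j).s n = 1 := rfl
        rw [e1, e2, e3]
        unfold cw
        by_cases h : n = j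
        · simp [h]
        · simp [h, Ne.symm h]
      simp only [h1]
      simp
    · refine ⟨n + 1, fun q hq => ?_⟩
      simp only [BoundedContinuousFunction.coe_ofNormedAddCommGroupDiscrete]
      rw [if_neg (fun h => by have := hq n h; omega), mul_zero, abs_zero]
      exact hε.le⟩

/-- The unit vectors. -/
noncomputable def e (n : ℕ) : X := es n

lemma e_f (n : ℕ) (q : J) : (e n).f q = cw q.b * if n ∈ q.F then q.s n else 0 := rfl

lemma norm_e_le (n : ℕ) : ‖e n‖ ≤ 1 := by
  refine X.norm_le zero_le_one (fun q => ?_)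
  rw [e_f, abs_mul, abs_of_pos (cw_pos _)]
  have h1 : |if n ∈ q.F then q.s n else 0| ≤ 1 := by
    split_ifs
    · exact q.hs n
    · simp
  calc cw q.b * |if n ∈ q.F then q.s n else 0| ≤ 1 * 1 :=
        mul_le_mul (cw_le _) h1 (abs_nonneg _) zero_le_one
    _ = 1 := one_mul 1

end Pool.Agent.X171.WB
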