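import Pool.Agent.X171.WB.Low

open Finset Filter Topology
open scoped BoundedContinuousFunction

namespace Pool.Agent.X171.WB

/-- Error terms. -/
noncomputable def dl (i : ℕ) : ℝ := (1 / 2 : ℝ) ^ (i + 1) / 4

lemma dl_pos (i : ℕ) : 0 < dl i := by unfold dl; positivity

lemma dl_succ (i : ℕ) : dl (i + 1) ≤ dl i := by
  unfold dl
  rw [pow_succ (1 / 2 : ℝ) (i + 1)]
  have : (0 : ℝ) < (1 / 2) ^ (i + 1) := by positivity
  linarith

lemma sum_dl (K : ℕ) : ∑ i ∈ range K, 4 * dl i ≤ 1 := by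
  have h : ∀ K, ∑ i ∈ range K, 4 * dl i = 1 - (1 / 2 : ℝ) ^ K := by
    intro K
    induction K with
    | zero => simp
    | succ K ih =>
      rw [Finset.sum_range_succ, ih]
      unfold dl
      rw [pow_succ]
      ring
  rw [h]
  have : (0 : ℝ) < (1 / 2) ^ K := by positivity
  linarith

/-- The block structure. -/
structure Blocks (x : ℕ → X) (x₀ : X) (m C : ℕ → ℕ) : Prop where
  hm : StrictMono m
  h0 : 0 < m 0
  hC : StrictMono C
  h3 : ∀ i, ∑ j ∈ range (C i), |(x (m i) - x₀).f (coord j)| ≤ dl i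
  h4 : ∀ i, ∀ q : J, (∀ j ∈ q.F, C (i + 1) ≤ j) → |(x (m i)).f q| ≤ dl i
  h5 : ∀ i, ∀ q : J, (∀ j ∈ q.F, C i ≤ j) → |x₀.f q| ≤ dl i
  h6 : ∀ i, C (i + 1) ≤ m (i + 1)

lemma exists_blocks (x : ℕ → X) (x₀ : X)
    (hw : ∀ φ : StrongDual ℝ X, Tendsto (fun n => φ (x n)) atTop (𝓝 (φ x₀))) :
    ∃ m C, Blocks x x₀ m C := by
  have hco : ∀ c : ℕ, ∀ ε : ℝ, 0 < ε → ∀ M : ℕ, ∃ n, M ≤ n ∧
      ∑ j ∈ range c, |(x n - x₀).f (coord j)| ≤ ε := by
    intro c ε hε M
    have h1 : Tendsto (fun n => ∑ j ∈ range c, |(x n - x₀).f (coord j)|) atTop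
        (𝓝 (∑ j ∈ range c, |(0 : ℝ)|)) := by
      apply tendsto_finsetSum
      intro j _
      apply Tendsto.abs
      have := (hw (D (coord j))).sub_const (D (coord j) x₀)
      rw [sub_self] at this
      refine this.congr (fun n => ?_)
      rw [← map_sub, D_apply]
    simp only [abs_zero, Finset.sum_const_zero] at h1
    obtain ⟨n, hn1, hn2⟩ := ((h1.eventually_le_const hε).and (eventually_ge_atTop M)).exists
    exact ⟨n, hn2, hn1⟩
  have hstep : ∀ (i : ℕ) (st : ℕ × ℕ), ∃ st' : ℕ × ℕ, st.1 < st'.1 ∧ st.2 < st'.2 ∧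
      (∀ q : J, (∀ j ∈ q.F, st'.2 ≤ j) → |(x st.1).f q| ≤ dl i) ∧
      (∀ q : J, (∀ j ∈ q.F, st'.2 ≤ j) → |x₀.f q| ≤ dl (i + 1)) ∧
      ∑ j ∈ range st'.2, |(x st'.1 - x₀).f (coord j)| ≤ dl (i + 1) ∧ st'.2 ≤ st'.1 := by
    intro i st
    obtain ⟨n1, hn1⟩ := (x st.1).prop_b (dl_pos i)
    obtain ⟨n2, hn2⟩ := x₀.prop_b (dl_pos (i + 1))
    set c := max (max n1 n2) (st.2 + 1) with hc
    obtain ⟨n, hn, hn3⟩ := hco c _ (dl_pos (i + 1)) (max c (st.1 + 1))
    refine ⟨(n, c), ?_, ?_, ?_, ?_, hn3, (le_max_left _ _).trans hn⟩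
    · exact lt_of_lt_of_le (Nat.lt_succ_self _) ((le_max_right _ _).trans hn)
    · exact lt_of_lt_of_le (Nat.lt_succ_self _) (le_max_right _ _)
    · intro q hq
      exact hn1 q (fun j hj => (le_max_left _ _).trans ((le_max_left _ _).trans (hq j hj)))
    · intro q hq
      exact hn2 q (fun j hj => (le_max_right _ _).trans ((le_max_left _ _).trans (hq j hj)))
  choose nx h1 h2 h3 h4 h5 h6 using hstep
  obtain ⟨c0, hc0⟩ := x₀.prop_b (dl_pos 0)
  obtain ⟨n0, hn0, hn0'⟩ := hco c0 _ (dl_pos 0) 1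
  set sq : ℕ → ℕ × ℕ := fun n => Nat.rec (n0, c0) (fun i st => nx i st) n with hsq
  have hs : ∀ i, sq (i + 1) = nx i (sq i) := fun _ => rfl
  refine ⟨fun i => (sq i).1, fun i => (sq i).2, ?_, hn0, ?_, ?_, ?_, ?_, ?_⟩
  · exact strictMono_nat_of_lt_succ (fun i => by rw [hs]; exact h1 i _)
  · exact strictMono_nat_of_lt_succ (fun i => by rw [hs]; exact h2 i _)
  · intro i
    cases i with
    | zero => exact hn0'
    | succ i => rw [hs]; exact h5 i _
  · intro i q hq
    rw [hs] at hq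
    exact h3 i _ q hq
  · intro i q hq
    cases i with
    | zero => exact hc0 q hq
    | succ i =>
      rw [hs] at hq
      exact h4 i _ q hq
  · intro i
    rw [hs]
    exact h6 i _

/-- Splitting a test functional into three parts. -/
lemma split3 (y : X) (q : J) (a b : ℕ) (hab : a ≤ b) :
    y.f q = y.f (q.res (fun j => j < a)) + y.f (q.res (fun j => a ≤ j ∧ j < b)) +
      y.f (q.res (fun j => b ≤ j)) := by
  have hr : ∀ (P : ℕ → Prop) [DecidablePred P], y.f (q.res P) =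
      cw q.b * ∑ j ∈ q.F, if P j then q.s j * y.f (coord j) else 0 := by
    intro P _
    rw [X.prop_a y (q.res P), ← Finset.sum_filter]
    rfl
  rw [hr, hr, hr, X.prop_a y q, ← mul_add, ← mul_add, ← Finset.sum_add_distrib,
    ← Finset.sum_add_distrib]
  congr 1
  apply Finset.sum_congr rfl
  intro j _
  by_cases h1 : j < a
  · have h2 : ¬ (a ≤ j ∧ j < b) := by omega
    have h3 : ¬ (b ≤ j) := by omega
    simp [h1, h3]
  · by_cases h2 : j < b
    · have h3 : a ≤ j := by omega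
      have h4 : ¬ b ≤ j := by omega
      simp [h1, h2, h3, h4]
    · have h3 : b ≤ j := by omega
      simp [h1, h2, h3]

/-- At most one block contains a given point. -/
lemma atmost {C : ℕ → ℕ} (hC : StrictMono C) (j K : ℕ) :
    ∑ i ∈ range K, (if C i ≤ j ∧ j < C (i + 1) then (1 : ℝ) else 0) ≤ 1 := by
  have h : ∑ i ∈ range K, (if C i ≤ j ∧ j < C (i + 1) then (1 : ℝ) else 0) ≤
      if j < C K then 1 else 0 := by
    induction K with
    | zero =>
      rw [Finset.sum_range_zero]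
      split_ifs <;> norm_num
    | succ K ih =>
      rw [Finset.sum_range_succ]
      have hK := hC (Nat.lt_succ_self K)
      simp only [Nat.succ_eq_add_one] at hK
      by_cases h1 : j < C K
      · rw [if_pos h1] at ih
        rw [if_neg (by omega), if_pos (by omega)]
        linarith
      · rw [if_neg h1] at ih
        by_cases h2 : j < C (K + 1)
        · rw [if_pos h2, if_pos ⟨not_lt.mp h1, h2⟩]
          linarith
        · rw [if_neg h2, if_neg (fun h => h2 h.2)]
          linarith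
  refine h.trans ?_
  split_ifs <;> norm_num

section Est

variable {x : ℕ → X} {x₀ : X} {m C : ℕ → ℕ}

/-- The main part of the value of the `i`-th vector at `q`. -/
noncomputable def tau (x : ℕ → X) (m C : ℕ → ℕ) (q : J) (i : ℕ) : ℝ :=
  |(x (m i)).f (q.res (fun j => C i ≤ j ∧ j < C (i + 1)))|

lemma tau_le_one (hx : ∀ n, ‖x n‖ ≤ 1) (q : J) (i : ℕ) : tau x m C q i ≤ 1 :=
  ((x (m i)).abs_le _).trans (hx _)

lemma tau_nonneg (q : J) (i : ℕ) : 0 ≤ tau x m C q i := abs_nonneg _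

lemma diff_le (hB : Blocks x x₀ m C) (q : J) (i : ℕ) :
    |(x (m i) - x₀).f q| ≤ tau x m C q i + 4 * dl i := by
  have hle : C i ≤ C (i + 1) := (hB.hC (Nat.lt_succ_self i)).le
  rw [split3 _ q (C i) (C (i + 1)) hle]
  -- the first part
  have e1 : |(x (m i) - x₀).f (q.res (fun j => j < C i))| ≤ dl i := by
    refine le_trans ?_ (hB.h3 i)
    rw [X.prop_a, abs_mul, abs_of_pos (cw_pos _)]
    calc cw (q.res (fun j => j < C i)).b *
          |∑ j ∈ (q.res (fun j => j < C i)).F, (q.res (fun j => j < C i)).s j *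
            (x (m i) - x₀).f (coord j)|
        ≤ 1 * ∑ j ∈ (q.res (fun j => j < C i)).F, |(x (m i) - x₀).f (coord j)| := by
          apply mul_le_mul (cw_le _) _ (abs_nonneg _) zero_le_one
          refine (Finset.abs_sum_le_sum_abs _ _).trans (Finset.sum_le_sum (fun j _ => ?_))
          rw [abs_mul]
          calc |(q.res (fun j => j < C i)).s j| * |(x (m i) - x₀).f (coord j)|
              ≤ 1 * |(x (m i) - x₀).f (coord j)| :=
                mul_le_mul_of_nonneg_right (J.hs _ j) (abs_nonneg _)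
            _ = _ := one_mul _
      _ = ∑ j ∈ (q.res (fun j => j < C i)).F, |(x (m i) - x₀).f (coord j)| := one_mul _
      _ ≤ ∑ j ∈ range (C i), |(x (m i) - x₀).f (coord j)| := by
          apply Finset.sum_le_sum_of_subset_of_nonneg
          · intro j hj
            exact Finset.mem_range.mpr (Finset.mem_filter.mp hj).2
          · intro j _ _
            exact abs_nonneg _
  have sub_f : ∀ q' : J, (x (m i) - x₀).f q' = (x (m i)).f q' - x₀.f q' := fun _ => rfl
  -- the middle part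
  have e2 : |(x (m i) - x₀).f (q.res (fun j => C i ≤ j ∧ j < C (i + 1)))| ≤
      tau x m C q i + dl i := by
    rw [sub_f]
    refine (abs_sub _ _).trans (add_le_add le_rfl (hB.h5 i _ ?_))
    intro j hj
    exact (Finset.mem_filter.mp hj).2.1
  -- the last part
  have e3 : |(x (m i) - x₀).f (q.res (fun j => C (i + 1) ≤ j))| ≤ dl i + dl i := by
    rw [sub_f]
    refine (abs_sub _ _).trans (add_le_add (hB.h4 i _ ?_) ((hB.h5 (i + 1) _ ?_).trans (dl_succ i)))
    · intro j hj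
      exact (Finset.mem_filter.mp hj).2
    · intro j hj
      exact (Finset.mem_filter.mp hj).2
  have e4 := abs_add_le ((x (m i) - x₀).f (q.res (fun j => j < C i)) +
    (x (m i) - x₀).f (q.res (fun j => C i ≤ j ∧ j < C (i + 1))))
    ((x (m i) - x₀).f (q.res (fun j => C (i + 1) ≤ j)))
  have e5 := abs_add_le ((x (m i) - x₀).f (q.res (fun j => j < C i)))
    ((x (m i) - x₀).f (q.res (fun j => C i ≤ j ∧ j < C (i + 1))))
  linarith

lemma tau_zero (q : J) (i : ℕ) (h : ∀ j ∈ q.F, ¬ (C i ≤ j ∧ j < C (i + 1))) :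
    tau x m C q i = 0 := by
  unfold tau
  rw [X.prop_a, Finset.sum_eq_zero, mul_zero, abs_zero]
  intro j hj
  exact absurd (Finset.mem_filter.mp hj).2 (h j (Finset.mem_filter.mp hj).1)

lemma tau_half (hx : ∀ n, ‖x n‖ ≤ 1) (q : J) (i : ℕ) (hb : q.b = false)
    (h : S1 (q.F.filter (fun j => C i ≤ j ∧ j < C (i + 1)))) : tau x m C q i ≤ 1 / 2 := by
  unfold tau
  set q' : J := ⟨(q.F.filter (fun j => C i ≤ j ∧ j < C (i + 1)), true, q.s), q.hs, by
    unfold Adm
    simpa using h⟩ with hq'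
  have e1 : (x (m i)).f (q.res (fun j => C i ≤ j ∧ j < C (i + 1))) = 1 / 2 * (x (m i)).f q' := by
    rw [X.prop_a, X.prop_a (x (m i)) q']
    have c1 : cw (q.res (fun j => C i ≤ j ∧ j < C (i + 1))).b = 1 / 2 := by
      have : (q.res (fun j => C i ≤ j ∧ j < C (i + 1))).b = q.b := rfl
      rw [this, hb]
      unfold cw
      simp
    have c2 : cw q'.b = 1 := by
      have : q'.b = true := rfl
      rw [this]
      unfold cw
      simp
    rw [c1, c2, one_mul]
    rfl
  rw [e1, abs_mul, abs_of_pos (by norm_num : (0 : ℝ) < 1 / 2)]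
  have := ((x (m i)).abs_le q').trans (hx _)
  linarith

/-- The exceptional blocks. -/
lemma exceptional (hx : ∀ n, ‖x n‖ ≤ 1) (q : J) {a : ℕ} (ha : a ∈ q.F) :
    ∃ (T : Finset ℕ) (ν : ℕ → ℕ), T.card ≤ a + 1 ∧
      ∀ i, (∀ t ∈ T, ¬ (C i ≤ ν t ∧ ν t < C (i + 1))) → tau x m C q i ≤ 1 / 2 := by
  by_cases hb : q.b = true
  · have hS : S1 q.F := by
      have := q.hA
      unfold Adm at this
      rwa [if_pos hb] at this
    refine ⟨q.F, id, hS a ha, fun i hi => ?_⟩
    rw [tau_zero q i hi]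
    norm_num
  · have hbf : q.b = false := by simpa using hb
    have hS : S2 q.F := by
      have := q.hA
      unfold Adm at this
      rwa [if_neg hb] at this
    obtain ⟨d, G, h1, h2, h3, h4⟩ := hS
    refine ⟨range d, fun l => sInf (G l : Set ℕ), by rw [Finset.card_range]; exact h4 a ha, ?_⟩
    intro i hi
    apply tau_half hx q i hbf
    -- all the elements of `q.F` in the block belong to the same `G l`
    by_cases hne : (q.F.filter (fun j => C i ≤ j ∧ j < C (i + 1))).Nonempty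
    · obtain ⟨j₀, hj₀⟩ := hne
      rw [Finset.mem_filter, h3, Finset.mem_biUnion] at hj₀
      obtain ⟨⟨l₀, hl₀, hjl₀⟩, hj₀C⟩ := hj₀
      have hsub : q.F.filter (fun j => C i ≤ j ∧ j < C (i + 1)) ⊆ G l₀ := by
        intro j hj
        rw [Finset.mem_filter, h3, Finset.mem_biUnion] at hj
        obtain ⟨⟨l, hl, hjl⟩, hjC⟩ := hj
        have hmin : ∀ l' < d, ∀ b ∈ G l', sInf (G l' : Set ℕ) ∈ G l' ∧ sInf (G l' : Set ℕ) ≤ b := by
          intro l' _ b hb'
          have hne' : (G l' : Set ℕ).Nonempty := ⟨b, hb'⟩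
          exact ⟨Nat.sInf_mem hne', Nat.sInf_le hb'⟩
        rcases lt_trichotomy l l₀ with h | h | h
        · exfalso
          have e1 := hmin l₀ (Finset.mem_range.mp hl₀) j₀ hjl₀
          have e2 := h2 l l₀ h (Finset.mem_range.mp hl₀) j hjl _ e1.1
          apply hi l₀ hl₀
          simp only
          omega
        · rw [← h]; exact hjl
        · exfalso
          have e1 := hmin l (Finset.mem_range.mp hl) j hjl
          have e2 := h2 l₀ l h (Finset.mem_range.mp hl) j₀ hjl₀ _ e1.1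
          apply hi l hl
          simp only
          omega
      exact (h1 l₀ (Finset.mem_range.mp hl₀)).mono hsub
    · rw [Finset.not_nonempty_iff_eq_empty] at hne
      rw [hne]
      intro j hj
      exact absurd hj (Finset.notMem_empty j)

/-- The estimate of the averages of the main parts. -/
lemma avg_le (hx : ∀ n, ‖x n‖ ≤ 1) (hB : Blocks x x₀ m C) (q : J) :
    ∃ g : ℕ → ℝ, (∀ i, 0 ≤ g i) ∧ (∀ K, ∑ i ∈ range K, g i ≤ 2) ∧
      ∀ n, (m (kk m n) : ℝ)⁻¹ * ∑ i ∈ Ico (kk m n) (kk m (n + 1)), tau x m C q i ≤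
        1 / 2 + ∑ i ∈ Ico (kk m n) (kk m (n + 1)), g i := by
  classical
  have hone : ∀ n, (m (kk m n) : ℝ)⁻¹ * ∑ i ∈ Ico (kk m n) (kk m (n + 1)), tau x m C q i ≤ 1 := by
    intro n
    have hpos := mkk_pos hB.hm hB.h0 n
    rw [inv_mul_le_iff₀ hpos, mul_one]
    calc ∑ i ∈ Ico (kk m n) (kk m (n + 1)), tau x m C q i
        ≤ ∑ i ∈ Ico (kk m n) (kk m (n + 1)), (1 : ℝ) :=
          Finset.sum_le_sum (fun i _ => tau_le_one hx q i)
      _ = m (kk m n) := by rw [Finset.sum_const, card_Ico, nsmul_eq_mul, mul_one]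
  by_cases hne : q.F.Nonempty
  · set a := q.F.min' hne with ha
    have haF : a ∈ q.F := Finset.min'_mem _ _
    obtain ⟨T, ν, hT, hν⟩ := exceptional (x := x) (m := m) (C := C) hx q haF
    have hex : ∃ i, a < C (i + 1) := ⟨a, lt_of_lt_of_le (Nat.lt_succ_self a) (hB.hC.id_le (a + 1))⟩
    set i₀ := Nat.find hex with hi₀
    have hi₀1 : a < C (i₀ + 1) := Nat.find_spec hex
    have hi₀2 : ∀ i < i₀, C (i + 1) ≤ a := fun i hi => not_lt.mp (Nat.find_min hex hi)
    have hapos : (0 : ℝ) < (a : ℝ) + 1 := by positivity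
    set h : ℕ → ℝ := fun i => ∑ t ∈ T, (if C i ≤ ν t ∧ ν t < C (i + 1) then (1 : ℝ) else 0) with hh
    have hh0 : ∀ i, 0 ≤ h i := fun i => Finset.sum_nonneg (fun t _ => by split_ifs <;> norm_num)
    have htau : ∀ i, tau x m C q i ≤ 1 / 2 + h i := by
      intro i
      by_cases hc : ∀ t ∈ T, ¬ (C i ≤ ν t ∧ ν t < C (i + 1))
      · have := hν i hc
        linarith [hh0 i]
      · push Not at hc
        obtain ⟨t, ht, ht2⟩ := hc
        have h1 : (1 : ℝ) ≤ h i := by
          have := Finset.single_le_sum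
            (f := fun t => if C i ≤ ν t ∧ ν t < C (i + 1) then (1 : ℝ) else 0)
            (fun t _ => by split_ifs <;> norm_num) ht
          rwa [if_pos ht2] at this
        linarith [tau_le_one (m := m) (C := C) hx q i]
    have hsum : ∀ K, ∑ i ∈ range K, h i ≤ (a : ℝ) + 1 := by
      intro K
      simp only [hh]
      rw [Finset.sum_comm]
      calc ∑ t ∈ T, ∑ i ∈ range K, (if C i ≤ ν t ∧ ν t < C (i + 1) then (1 : ℝ) else 0)
          ≤ ∑ t ∈ T, (1 : ℝ) := Finset.sum_le_sum (fun t _ => atmost hB.hC _ _)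
        _ = T.card := by rw [Finset.sum_const, nsmul_eq_mul, mul_one]
        _ ≤ (a : ℝ) + 1 := by exact_mod_cast hT
    refine ⟨fun i => (if i = i₀ then 1 else 0) + ((a : ℝ) + 1)⁻¹ * h i, ?_, ?_, ?_⟩
    · intro i
      have := hh0 i
      apply add_nonneg
      · split_ifs <;> norm_num
      · positivity
    · intro K
      rw [Finset.sum_add_distrib, ← Finset.mul_sum]
      have e1 : ∑ i ∈ range K, (if i = i₀ then (1 : ℝ) else 0) ≤ 1 := by
        rw [Finset.sum_ite_eq']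
        split_ifs <;> norm_num
      have e2 : ((a : ℝ) + 1)⁻¹ * ∑ i ∈ range K, h i ≤ 1 := by
        rw [inv_mul_le_iff₀ hapos, mul_one]
        exact hsum K
      linarith
    · intro n
      rw [Finset.sum_add_distrib, ← Finset.mul_sum]
      have hsn : 0 ≤ ∑ i ∈ Ico (kk m n) (kk m (n + 1)), h i :=
        Finset.sum_nonneg (fun i _ => hh0 i)
      have hsn2 : 0 ≤ ((a : ℝ) + 1)⁻¹ * ∑ i ∈ Ico (kk m n) (kk m (n + 1)), h i := by positivity
      have hsn3 : 0 ≤ ∑ i ∈ Ico (kk m n) (kk m (n + 1)), (if i = i₀ then (1 : ℝ) else 0) :=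
        Finset.sum_nonneg (fun i _ => by split_ifs <;> norm_num)
      by_cases hc1 : kk m (n + 1) ≤ i₀
      · rw [Finset.sum_eq_zero, mul_zero]
        · linarith
        · intro i hi
          rw [Finset.mem_Ico] at hi
          apply tau_zero
          intro j hj hjC
          have := hi₀2 i (by omega)
          have h2 : a ≤ j := Finset.min'_le _ _ hj
          omega
      · by_cases hc2 : kk m n ≤ i₀
        · have e1 : ∑ i ∈ Ico (kk m n) (kk m (n + 1)), (if i = i₀ then (1 : ℝ) else 0) = 1 := by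
            rw [Finset.sum_ite_eq', if_pos]
            rw [Finset.mem_Ico]
            omega
          have := hone n
          linarith
        · have hpos := mkk_pos hB.hm hB.h0 n
          have e1 : (a : ℝ) + 1 ≤ m (kk m n) := by
            have h1 : i₀ + 1 ≤ kk m n := by omega
            have h2 : m (i₀ + 1) ≤ m (kk m n) := hB.hm.monotone h1
            have h3 := hB.h6 i₀
            exact_mod_cast (by omega : a + 1 ≤ m (kk m n))
          have e2 : ∑ i ∈ Ico (kk m n) (kk m (n + 1)), tau x m C q i ≤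
              m (kk m n) * (1 / 2) + ∑ i ∈ Ico (kk m n) (kk m (n + 1)), h i := by
            calc ∑ i ∈ Ico (kk m n) (kk m (n + 1)), tau x m C q i
                ≤ ∑ i ∈ Ico (kk m n) (kk m (n + 1)), (1 / 2 + h i) :=
                  Finset.sum_le_sum (fun i _ => htau i)
              _ = _ := by rw [Finset.sum_add_distrib, Finset.sum_const, card_Ico, nsmul_eq_mul]
          have e3 : (m (kk m n) : ℝ)⁻¹ * ∑ i ∈ Ico (kk m n) (kk m (n + 1)), h i ≤
              ((a : ℝ) + 1)⁻¹ * ∑ i ∈ Ico (kk m n) (kk m (n + 1)), h i :=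
            mul_le_mul_of_nonneg_right (inv_anti₀ hapos e1) hsn
          have e4 := mul_le_mul_of_nonneg_left e2 (inv_nonneg.mpr hpos.le)
          rw [mul_add, ← mul_assoc, inv_mul_cancel₀ hpos.ne', one_mul] at e4
          linarith
  · refine ⟨fun _ => 0, fun _ => le_rfl, fun K => by simp, fun n => ?_⟩
    rw [Finset.not_nonempty_iff_eq_empty] at hne
    rw [Finset.sum_eq_zero, mul_zero]
    · simp
    · intro i _
      apply tau_zero
      rw [hne]
      intro j hj
      exact absurd hj (Finset.notMem_empty j)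

lemma sum_blocks (f : ℕ → ℝ) (hm : StrictMono m) (h0 : 0 < m 0) (N : ℕ) :
    ∑ n ∈ range N, ∑ i ∈ Ico (kk m n) (kk m (n + 1)), f i = ∑ i ∈ range (kk m N), f i := by
  induction N with
  | zero => simp [kk]
  | succ N ih =>
    rw [Finset.sum_range_succ, ih, Finset.range_eq_Ico, Finset.range_eq_Ico,
      Finset.sum_Ico_consecutive _ (Nat.zero_le _) (kk_lt hm h0 N).le]

/-- The Cesaro means are close to the limit up to `1/2`. -/
lemma cesaro_close (hx : ∀ n, ‖x n‖ ≤ 1) (hB : Blocks x x₀ m C) (N : ℕ) :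
    ‖cesaro (fun n => act (RA 1 m n) x) N - x₀‖ ≤ 1 / 2 + 3 * ((N : ℝ) + 1)⁻¹ := by
  have hNpos : (0 : ℝ) < (N : ℝ) + 1 := by positivity
  refine X.norm_le (by positivity) (fun q => ?_)
  obtain ⟨g, hg0, hg1, hg2⟩ := avg_le hx hB q
  -- the difference of one average
  have h1 : ∀ n, |D q (act (RA 1 m n) x - x₀)| ≤
      1 / 2 + ∑ i ∈ Ico (kk m n) (kk m (n + 1)), (g i + 4 * dl i) := by
    intro n
    have hpos := mkk_pos hB.hm hB.h0 n
    have hge : (1 : ℝ) ≤ m (kk m n) := by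
      have := lt_m hB.hm hB.h0 (kk m n)
      exact_mod_cast (by omega : 1 ≤ m (kk m n))
    have e1 : act (RA 1 m n) x - x₀ = (m (kk m n) : ℝ)⁻¹ •
        ∑ i ∈ Ico (kk m n) (kk m (n + 1)), (x (m i) - x₀) := by
      rw [act_RA_one, Finset.sum_sub_distrib, Finset.sum_const, card_Ico, smul_sub,
        ← Nat.cast_smul_eq_nsmul ℝ, smul_smul, inv_mul_cancel₀ hpos.ne', one_smul]
    rw [e1, map_smul, map_sum, smul_eq_mul, abs_mul, abs_of_nonneg (inv_nonneg.mpr hpos.le)]
    have e2 : |∑ i ∈ Ico (kk m n) (kk m (n + 1)), D q (x (m i) - x₀)| ≤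
        ∑ i ∈ Ico (kk m n) (kk m (n + 1)), tau x m C q i +
          ∑ i ∈ Ico (kk m n) (kk m (n + 1)), 4 * dl i := by
      rw [← Finset.sum_add_distrib]
      exact (Finset.abs_sum_le_sum_abs _ _).trans (Finset.sum_le_sum (fun i _ => diff_le hB q i))
    have e3 := mul_le_mul_of_nonneg_left e2 (inv_nonneg.mpr hpos.le)
    rw [mul_add] at e3
    have hdl : 0 ≤ ∑ i ∈ Ico (kk m n) (kk m (n + 1)), 4 * dl i :=
      Finset.sum_nonneg (fun i _ => by have := dl_pos i; positivity)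
    have e4 : (m (kk m n) : ℝ)⁻¹ * ∑ i ∈ Ico (kk m n) (kk m (n + 1)), 4 * dl i ≤
        ∑ i ∈ Ico (kk m n) (kk m (n + 1)), 4 * dl i := by
      calc (m (kk m n) : ℝ)⁻¹ * ∑ i ∈ Ico (kk m n) (kk m (n + 1)), 4 * dl i
          ≤ 1 * ∑ i ∈ Ico (kk m n) (kk m (n + 1)), 4 * dl i :=
            mul_le_mul_of_nonneg_right (inv_le_one_of_one_le₀ hge) hdl
        _ = _ := one_mul _
    rw [Finset.sum_add_distrib]
    linarith [hg2 n]
  have h2 : cesaro (fun n => act (RA 1 m n) x) N - x₀ =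
      ((N : ℝ) + 1)⁻¹ • ∑ n ∈ range (N + 1), (act (RA 1 m n) x - x₀) := by
    unfold cesaro
    rw [Finset.sum_sub_distrib, Finset.sum_const, Finset.card_range, smul_sub,
      ← Nat.cast_smul_eq_nsmul ℝ, smul_smul]
    congr 1
    push_cast
    rw [inv_mul_cancel₀ hNpos.ne', one_smul]
  rw [← D_apply, h2, map_smul, map_sum, smul_eq_mul, abs_mul,
    abs_of_nonneg (inv_nonneg.mpr hNpos.le)]
  have h3 : |∑ n ∈ range (N + 1), D q (act (RA 1 m n) x - x₀)| ≤ ((N : ℝ) + 1) * (1 / 2) + 3 := by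
    refine (Finset.abs_sum_le_sum_abs _ _).trans ?_
    calc ∑ n ∈ range (N + 1), |D q (act (RA 1 m n) x - x₀)|
        ≤ ∑ n ∈ range (N + 1), (1 / 2 + ∑ i ∈ Ico (kk m n) (kk m (n + 1)), (g i + 4 * dl i)) :=
          Finset.sum_le_sum (fun n _ => h1 n)
      _ = ((N : ℝ) + 1) * (1 / 2) + ∑ i ∈ range (kk m (N + 1)), (g i + 4 * dl i) := by
          rw [Finset.sum_add_distrib, Finset.sum_const, Finset.card_range, nsmul_eq_mul,
            sum_blocks _ hB.hm hB.h0]
          push_cast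
          rfl
      _ ≤ ((N : ℝ) + 1) * (1 / 2) + 3 := by
          rw [Finset.sum_add_distrib]
          linarith [hg1 (kk m (N + 1)), sum_dl (kk m (N + 1))]
  calc ((N : ℝ) + 1)⁻¹ * |∑ n ∈ range (N + 1), D q (act (RA 1 m n) x - x₀)|
      ≤ ((N : ℝ) + 1)⁻¹ * (((N : ℝ) + 1) * (1 / 2) + 3) :=
        mul_le_mul_of_nonneg_left h3 (inv_nonneg.mpr hNpos.le)
    _ = 1 / 2 + 3 * ((N : ℝ) + 1)⁻¹ := by
        field_simp

end Est

theorem upper (x : ℕ → X) (hx : ∀ n, ‖x n‖ ≤ 1) (hw : WeakConv x) : wcca 1 x ≤ 1 := by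
  obtain ⟨x₀, hw⟩ := hw
  obtain ⟨m, C, hB⟩ := exists_blocks x x₀ hw
  unfold wcca
  refine (ciInf_le ⟨0, ?_⟩ (⟨m, hB.hm, hB.h0⟩ : {m : ℕ → ℕ // StrictMono m ∧ 0 < m 0})).trans ?_
  · rintro _ ⟨m, rfl⟩
    exact ca_nonneg _
  · apply ca_le
    intro ε hε
    obtain ⟨n, hn⟩ := exists_nat_one_div_lt (by positivity : (0 : ℝ) < ε / 6)
    refine ⟨n, fun k l hk hl => ?_⟩
    have hinv : ∀ k, n ≤ k → ((k : ℝ) + 1)⁻¹ ≤ ε / 6 := by
      intro k hk
      have h1 : (n : ℝ) + 1 ≤ (k : ℝ) + 1 := by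
        have : (n : ℝ) ≤ k := by exact_mod_cast hk
        linarith
      have h2 : ((k : ℝ) + 1)⁻¹ ≤ ((n : ℝ) + 1)⁻¹ := inv_anti₀ (by positivity) h1
      rw [one_div] at hn
      linarith
    have e1 := cesaro_close hx hB k
    have e2 := cesaro_close hx hB l
    have e3 : cesaro (fun n => act (RA 1 m n) x) k - cesaro (fun n => act (RA 1 m n) x) l =
        (cesaro (fun n => act (RA 1 m n) x) k - x₀) - (cesaro (fun n => act (RA 1 m n) x) l - x₀) := by
      abel
    rw [e3]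
    refine (norm_sub_le _ _).trans ?_
    have := hinv k hk
    have := hinv l hl
    linarith

end Pool.Agent.X171.WB
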